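import Pool.Agent.Helper97_LMD.Example

namespace Pool.Agent.Results.MP_d619e0_co.EqualityGraphs

open Pool.Agent.Helper97_LMD

universe u

/-- Complete description of the connected graphs `G` of diameter `d ≥ 2` with
`ldim G = g(d, χ(G))`. -/
theorem result :
    (∀ {V : Type u} [Finite V] (G : SimpleGraph V) (d c : ℕ), G.Connected → G.diam = d → 2 ≤ d →
      G.chromaticNumber = c →
      ((ldim G = gmin d c ↔ (TwoPoint G ∨ (d = 2 ∧ c = 5 ∧ ThreePath G))) ∧
       (ldim G = gmin d c ↔ (ldim G ≤ 2 ∨ (d = 2 ∧ c = 5 ∧ ldim G = 3))))) ∧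
    (∃ G : SimpleGraph (Fin 11), G.Connected ∧ G.diam = 2 ∧ G.chromaticNumber = 5 ∧
      ldim G = gmin 2 5 ∧ ¬ TwoPoint G) := by
  constructor
  · intro V _ G d c hG hd hd2 hc
    obtain ⟨a, b, hab⟩ := exists_edge hG hd hd2
    refine ⟨?_, main_one hG hd hd2 hc⟩
    rw [main_one hG hd hd2 hc, two_point_iff hG hab]
    constructor
    · rintro (h | ⟨rfl, rfl, h⟩)
      · exact Or.inl h
      · exact Or.inr ⟨rfl, rfl, (three_path_iff hG hd hc).mp h⟩
    · rintro (h | ⟨rfl, rfl, h⟩)
      · exact Or.inl h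
      · exact Or.inr ⟨rfl, rfl, (three_path_iff hG hd hc).mpr h⟩
  · refine ⟨Example.H, Example.connected, Example.diam_eq, Example.chi_eq, ?_, ?_⟩
    · rw [gmin_two_five, Example.ldim_eq]; rfl
    · intro h
      obtain ⟨a, b, hab⟩ := exists_edge Example.connected Example.diam_eq (le_refl 2)
      have h2 := (two_point_iff Example.connected hab).mpr h
      rw [Example.ldim_eq] at h2
      have : (3 : ℕ) ≤ 2 := by exact_mod_cast h2
      omega

end Pool.Agent.Results.MP_d619e0_co.EqualityGraphs
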